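import Pool.Agent.Lib.MP_152d63_al.Numerics

/-! The numerical data of the centre and the Galois orbit of the global dimension. -/

namespace Pool.Agent.Lib.MP_152d63_al

open Finset Polynomial

/-- The identities satisfied by the centre. -/
structure Dat {ι κ : Type} [Fintype ι] [Fintype κ] (o : ι) (N : ι → ι → ι → ℕ) (d : ι → ℂ)
    (n : κ → ι → ℕ) (θ : κ → ℂ) (m : (ι → ℂ) → κ → ℕ) : Prop where
  hd : GoodChar o N d
  hθ : ∀ Y, nY n d Y ≠ 0 → ∃ r : ℕ, 0 < r ∧ θ Y ^ r = 1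
  hm1 : ∀ χ, GoodChar o N χ → ∑ Y, m χ Y * m χ Y = 1
  hm0 : ∀ χ ψ, GoodChar o N χ → GoodChar o N ψ → χ ≠ ψ → ∑ Y, m χ Y * m ψ Y = 0
  hmθ : ∀ χ, GoodChar o N χ → ∀ Y, m χ Y ≠ 0 → θ Y = 1
  hS : ∀ j, ∑ Y, (n Y j : ℂ) * nY n d Y = (∑ i, d i ^ 2) * d j
  hT : ∀ ψ : ι → ℂ, ∑ Y, θ Y * nY n ψ Y * nY n d Y = (∑ i, d i ^ 2) * ψ o
  hX : ∀ χ, GoodChar o N χ → ∀ j, ∑ Y, θ Y * (n Y j : ℂ) * nY n χ Y
    = (∑ i, χ i ^ 2) * ∑ Y, (n Y j : ℂ) * (m χ Y : ℂ)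

variable {ι κ : Type} [Fintype ι] [Fintype κ] {o : ι} {N : ι → ι → ι → ℕ} {d : ι → ℂ}
  {n : κ → ι → ℕ} {θ : κ → ℂ} {m : (ι → ℂ) → κ → ℕ}

/-- The conjugate of the global dimension. -/
noncomputable def cj (d : ι → ℂ) (σ : ℂ ≃+* ℂ) : ℝ := nF fun i => σ (d i)

theorem GoodChar.map_nF (hd : GoodChar o N d) (σ : ℂ ≃+* ℂ) :
    σ ((nF d : ℝ) : ℂ) = ((cj d σ : ℝ) : ℂ) := by
  rw [cj, hd.nF_eq, (hd.map σ).nF_eq]
  simp only [map_sum, map_pow]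

theorem GoodChar.one_le_cj (hd : GoodChar o N d) (σ : ℂ ≃+* ℂ) : 1 ≤ cj d σ :=
  (hd.map σ).one_le_nF

theorem GoodChar.cj_pos (hd : GoodChar o N d) (σ : ℂ ≃+* ℂ) : 0 < cj d σ :=
  one_pos.trans_le (hd.one_le_cj σ)

theorem GoodChar.nF_pos (hd : GoodChar o N d) : 0 < nF d := one_pos.trans_le hd.one_le_nF

theorem GoodChar.map_cj (hd : GoodChar o N d) (σ τ : ℂ ≃+* ℂ) :
    τ ((cj d σ : ℝ) : ℂ) = ((cj d (σ.trans τ) : ℝ) : ℂ) := by
  rw [← hd.map_nF, ← hd.map_nF]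
  rfl

theorem GoodChar.isIntegral_nF (hd : GoodChar o N d) : IsIntegral ℤ ((nF d : ℝ) : ℂ) := by
  rw [hd.nF_eq]
  exact hd.isIntegral_sum_sq

theorem two_bessel {A : Type} (s : Finset A) (χ : A → ι → ℂ) (h : ∀ a ∈ s, GoodChar o N (χ a))
    (hne : ∀ a ∈ s, ∀ b ∈ s, a ≠ b → χ a ≠ χ b) : ∑ a ∈ s, (nF (χ a))⁻¹ ≤ 1 := by
  classical
  have h1 : (∑ a ∈ s, (nF (χ a))⁻¹ * (χ a o).re) ^ 2 ≤
      ∑ i, (∑ a ∈ s, (nF (χ a))⁻¹ * (χ a i).re) ^ 2 :=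
    single_le_sum (f := fun i => (∑ a ∈ s, (nF (χ a))⁻¹ * (χ a i).re) ^ 2)
      (fun i _ => sq_nonneg _) (mem_univ o)
  have h2 : ∑ i, (∑ a ∈ s, (nF (χ a))⁻¹ * (χ a i).re) ^ 2 = ∑ a ∈ s, (nF (χ a))⁻¹ := by
    simp only [sq, sum_mul_sum]
    rw [sum_comm]
    refine sum_congr rfl fun a ha => ?_
    rw [sum_comm, sum_eq_single a]
    · have := (h a ha).nF_pos
      have e : ∑ i, (nF (χ a))⁻¹ * (χ a i).re * ((nF (χ a))⁻¹ * (χ a i).re)
          = (nF (χ a))⁻¹ ^ 2 * nF (χ a) := by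
        conv_rhs => rw [nF.eq_1 (χ a), mul_sum]
        exact sum_congr rfl fun i _ => by rw [← nF.eq_1 (χ a)]; ring
      rw [e]
      field_simp
    · intro b hb hba
      have e : ∑ i, (nF (χ a))⁻¹ * (χ a i).re * ((nF (χ b))⁻¹ * (χ b i).re)
          = (nF (χ a))⁻¹ * (nF (χ b))⁻¹ * ∑ i, (χ a i).re * (χ b i).re := by
        rw [mul_sum]
        exact sum_congr rfl fun i _ => by ring
      rw [e, (h a ha).orth_re (h b hb) (hne a ha b hb hba.symm), mul_zero]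
    · intro ha'
      exact absurd ha ha'
  have h3 : ∑ a ∈ s, (nF (χ a))⁻¹ * (χ a o).re = ∑ a ∈ s, (nF (χ a))⁻¹ :=
    sum_congr rfl fun a ha => by rw [(h a ha).one, Complex.one_re, mul_one]
  rw [h2, h3] at h1
  by_contra hc
  push Not at hc
  nlinarith

/-- The object of the centre attached to a character. -/
theorem Dat.col (h : Dat o N d n θ m) {φ : ι → ℂ} (gφ : GoodChar o N φ) :
    ∃ Y₀, m φ Y₀ = 1 ∧ (nF φ : ℂ) * nY n d Y₀ = (nF d : ℂ) ∧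
      ∀ ψ : ι → ℂ, ∑ Y, θ Y * nY n ψ Y * nY n φ Y = (nF φ : ℂ) * nY n ψ Y₀ := by
  obtain ⟨Y₀, h1, h0⟩ := n_indicator _ (h.hm1 φ gφ)
  have C0 : ∀ ψ : ι → ℂ, ∑ Y, θ Y * nY n ψ Y * nY n φ Y = (nF φ : ℂ) * nY n ψ Y₀ := by
    intro ψ
    have e1 : ∑ Y, θ Y * nY n ψ Y * nY n φ Y = ∑ Y, nY n ψ Y * (θ Y * nY n φ Y) :=
      Finset.sum_congr rfl fun Y _ => by ring
    have e2 : ∀ j, ∑ Y, (n Y j : ℂ) * (θ Y * nY n φ Y) = (nF φ : ℂ) * (n Y₀ j : ℂ) := by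
      intro j
      have e3 : ∑ Y, (n Y j : ℂ) * (m φ Y : ℂ) = (n Y₀ j : ℂ) := by
        rw [Finset.sum_eq_single Y₀ (fun Y _ hY => by simp [h0 Y hY]) (by simp), h1]
        simp
      rw [gφ.nF_eq, ← e3, ← h.hX φ gφ j]
      exact Finset.sum_congr rfl fun Y _ => by ring
    rw [e1, ← n_weight, nY, Finset.mul_sum]
    exact Finset.sum_congr rfl fun j _ => by rw [e2]; ring
  refine ⟨Y₀, h1, ?_, C0⟩
  have e := h.hT φ
  rw [gφ.one, mul_one, ← h.hd.nF_eq] at e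
  rw [← C0 d, ← e]
  exact Finset.sum_congr rfl fun Y _ => by ring

theorem Dat.pair (h : Dat o N d n θ m) (σ τ : ℂ ≃+* ℂ) :
    (∑ Y, θ Y * nY n (fun i => σ (d i)) Y * nY n (fun i => τ (d i)) Y) * (cj d (τ.trans σ) : ℂ)
      = (cj d σ : ℂ) * (cj d τ : ℂ) := by
  obtain ⟨Y₀, -, h1, h2⟩ := h.col (h.hd.map τ)
  have e := congrArg σ h1
  rw [map_mul, h.hd.map_nF, ← nY_map] at e
  change σ ((cj d τ : ℝ) : ℂ) * _ = _ at e
  rw [h.hd.map_cj] at e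
  rw [h2, ← e]
  change (cj d τ : ℂ) * _ * _ = _
  ring

/-- Field automorphisms commute on the global dimension. -/
theorem Dat.comm (h : Dat o N d n θ m) (σ τ : ℂ ≃+* ℂ) : cj d (τ.trans σ) = cj d (σ.trans τ) := by
  have h1 := h.pair σ τ
  have h2 := h.pair τ σ
  have e : ∑ Y, θ Y * nY n (fun i => τ (d i)) Y * nY n (fun i => σ (d i)) Y
      = ∑ Y, θ Y * nY n (fun i => σ (d i)) Y * nY n (fun i => τ (d i)) Y :=
    sum_congr rfl fun Y _ => by ring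
  rw [e, mul_comm (cj d τ : ℂ), ← h1] at h2
  have hne : ∑ Y, θ Y * nY n (fun i => σ (d i)) Y * nY n (fun i => τ (d i)) Y ≠ 0 := by
    intro h0
    rw [h0, zero_mul] at h1
    have := mul_pos (h.hd.cj_pos σ) (h.hd.cj_pos τ)
    exact this.ne (by exact_mod_cast h1)
  exact_mod_cast (mul_left_cancel₀ hne h2).symm

theorem Dat.isIntegral_div (h : Dat o N d n θ m) (σ τ : ℂ ≃+* ℂ) :
    IsIntegral ℤ ((cj d σ / cj d τ : ℝ) : ℂ) := by
  obtain ⟨Y₀, -, h1, -⟩ := h.col (h.hd.map (τ.trans σ.symm))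
  have e := congrArg σ h1
  rw [map_mul, h.hd.map_nF, ← nY_map] at e
  change σ ((cj d (τ.trans σ.symm) : ℝ) : ℂ) * _ = _ at e
  rw [h.hd.map_cj, show (τ.trans σ.symm).trans σ = τ from RingEquiv.ext fun x => by simp] at e
  have p : ((cj d τ : ℝ) : ℂ) ≠ 0 := by exact_mod_cast (h.hd.cj_pos τ).ne'
  rw [Complex.ofReal_div, ← e, mul_div_cancel_left₀ _ p]
  exact IsIntegral.sum _ fun i _ =>
    (isIntegral_natCast _).mul ((h.hd.map σ).isIntegral i)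

theorem cj_refl (d : ι → ℂ) : cj d (RingEquiv.refl ℂ) = nF d := rfl

theorem Dat.key (h : Dat o N d n θ m) (σ : ℂ ≃+* ℂ) (hσ : cj d σ ≠ nF d) :
    2 * (nF d)⁻¹ - 1 ≤ (cj d σ)⁻¹ + (cj d σ.symm)⁻¹ := by
  have k := n_key o N d h.hd n θ h.hθ m h.hm1 h.hm0 h.hmθ h.hS h.hT h.hX σ
    (fun e => hσ (by rw [cj, e]))
  change 2 * (((nF d)⁻¹ - (cj d σ)⁻¹) ^ 2 + ((nF d)⁻¹ - (cj d σ.symm)⁻¹) ^ 2)
    ≤ 2 + (cj d σ)⁻¹ + (cj d σ.symm)⁻¹ - 2 * (nF d)⁻¹ at k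
  generalize (nF d)⁻¹ = x at *
  generalize (cj d σ)⁻¹ = a at *
  generalize (cj d σ.symm)⁻¹ = b at *
  by_contra hc
  push Not at hc
  nlinarith [sq_nonneg (a - b)]

/-- The orbit of the global dimension is the set of roots of its minimal polynomial. -/
theorem GoodChar.orbit (hd : GoodChar o N d) : ∃ R : Finset ℝ,
    R.card = (minpoly ℚ (nF d)).natDegree ∧ ∀ w, w ∈ R ↔ ∃ σ, cj d σ = w := by
  classical
  have hz : IsIntegral ℚ ((nF d : ℝ) : ℂ) := hd.isIntegral_nF.tower_top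
  have hmp : minpoly ℚ ((nF d : ℝ) : ℂ) = minpoly ℚ (nF d) :=
    minpoly.algebraMap_eq (A := ℚ) (algebraMap ℝ ℂ).injective (nF d)
  have hroot : ∀ w : ℂ, w ∈ (minpoly ℚ ((nF d : ℝ) : ℂ)).rootSet ℂ ↔ ∃ σ, (cj d σ : ℂ) = w := by
    intro w
    rw [mem_rootSet_of_ne (minpoly.ne_zero hz)]
    constructor
    · intro hw
      have hwa : IsAlgebraic ℚ w := ⟨_, minpoly.ne_zero hz, hw⟩
      have : IsAlgClosure ℚ (algebraicClosure ℚ ℂ) := algebraicClosure.isAlgClosure ℚ ℂ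
      have : IsGalois ℚ (algebraicClosure ℚ ℂ) := IsAlgClosure.isGalois ℚ _
      let z' : algebraicClosure ℚ ℂ := ⟨_, mem_algebraicClosure_iff.2 hz.isAlgebraic⟩
      let w' : algebraicClosure ℚ ℂ := ⟨w, mem_algebraicClosure_iff.2 hwa⟩
      have e1 : minpoly ℚ ((nF d : ℝ) : ℂ) = minpoly ℚ z' :=
        minpoly.algebraMap_eq (A := ℚ) (algebraMap (algebraicClosure ℚ ℂ) ℂ).injective z'
      have e2 : aeval w' (minpoly ℚ z') = 0 := by
        apply (algebraMap (algebraicClosure ℚ ℂ) ℂ).injective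
        rw [← aeval_algebraMap_apply, ← e1, map_zero]
        exact hw
      obtain ⟨s, hs⟩ := minpoly.exists_algEquiv_of_root' (Algebra.IsAlgebraic.isAlgebraic z') e2
      obtain ⟨σ, hσ⟩ := n_lift s
      refine ⟨σ, ?_⟩
      rw [← hd.map_nF]
      exact (hσ z').trans (congrArg Subtype.val hs)
    · rintro ⟨σ, rfl⟩
      rw [← hd.map_nF]
      have := aeval_algHom_apply (σ : ℂ →+* ℂ).toRatAlgHom ((nF d : ℝ) : ℂ)
        (minpoly ℚ ((nF d : ℝ) : ℂ))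
      rw [minpoly.aeval, map_zero] at this
      exact this
  have hcard := card_rootSet_eq_natDegree (K := ℂ) (minpoly.irreducible hz).separable
    (IsAlgClosed.splits _)
  refine ⟨((minpoly ℚ ((nF d : ℝ) : ℂ)).rootSet ℂ).toFinset.image Complex.re, ?_, fun w => ?_⟩
  · rw [card_image_of_injOn, Set.toFinset_card, hcard, hmp]
    intro a ha b hb hab
    obtain ⟨σ, rfl⟩ := (hroot a).1 (by simpa using ha)
    obtain ⟨τ, rfl⟩ := (hroot b).1 (by simpa using hb)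
    simpa using hab
  · simp only [mem_image, Set.mem_toFinset, hroot]
    constructor
    · rintro ⟨_, ⟨σ, rfl⟩, rfl⟩
      exact ⟨σ, by simp⟩
    · rintro ⟨σ, rfl⟩
      exact ⟨_, ⟨σ, rfl⟩, by simp⟩

theorem Dat.symm_inj (h : Dat o N d n θ m) {σ τ : ℂ ≃+* ℂ} (e : cj d σ.symm = cj d τ.symm) :
    cj d σ = cj d τ := by
  have e1 : cj d (σ.symm.trans τ) = nF d := by
    apply Complex.ofReal_injective
    rw [← h.hd.map_cj, e, h.hd.map_cj, RingEquiv.symm_trans_self, cj_refl]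
  have e2 := h.comm σ (σ.symm.trans τ)
  rw [show σ.trans (σ.symm.trans τ) = τ from RingEquiv.ext fun x => by simp] at e2
  apply Complex.ofReal_injective
  rw [← e2, ← h.hd.map_cj, e1, h.hd.map_nF]

/-- The lower bound in terms of the degree. -/
theorem Dat.degree (h : Dat o N d n θ m) :
    2 * ((minpoly ℚ (nF d)).natDegree : ℝ) / ((minpoly ℚ (nF d)).natDegree + 1) ≤ nF d := by
  classical
  obtain ⟨R, hc, hR⟩ := h.hd.orbit
  have hs : ∀ w : ℝ, ∃ σ, w ∈ R → cj d σ = w := fun w => by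
    by_cases hw : w ∈ R
    · exact ((hR w).1 hw).imp fun _ e _ => e
    · exact ⟨RingEquiv.refl ℂ, fun h => absurd h hw⟩
  choose s hs using hs
  have hD : nF d ∈ R := (hR _).2 ⟨_, cj_refl d⟩
  have b1 : ∑ w ∈ R, (cj d (s w))⁻¹ ≤ 1 :=
    two_bessel R (fun w i => s w (d i)) (fun w _ => h.hd.map _) fun a ha b hb hab e =>
      hab (by rw [← hs a ha, ← hs b hb, cj, cj, e])
  have b2 : ∑ w ∈ R, (cj d (s w).symm)⁻¹ ≤ 1 :=
    two_bessel R (fun w i => (s w).symm (d i)) (fun w _ => h.hd.map _) fun a ha b hb hab e =>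
      hab (by rw [← hs a ha, ← hs b hb]; exact h.symm_inj (by rw [cj, cj, e]))
  have e0 : cj d (s (nF d)).symm = nF d := by
    have := h.symm_inj (σ := (s (nF d)).symm) (τ := RingEquiv.refl ℂ) (hs _ hD)
    exact this
  have b3 : ∑ w ∈ R.erase (nF d), (2 * (nF d)⁻¹ - 1) ≤
      ∑ w ∈ R.erase (nF d), ((cj d (s w))⁻¹ + (cj d (s w).symm)⁻¹) :=
    sum_le_sum fun w hw => h.key _ (by rw [hs w (mem_of_mem_erase hw)]; exact ne_of_mem_erase hw)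
  rw [← add_sum_erase _ _ hD] at b1 b2
  rw [hs _ hD] at b1
  rw [e0] at b2
  rw [sum_add_distrib, sum_const, card_erase_of_mem hD, nsmul_eq_mul,
    Nat.cast_sub (card_pos.2 ⟨_, hD⟩), hc] at b3
  have p := h.hd.nF_pos
  have e4 : (nF d)⁻¹ * nF d = 1 := inv_mul_cancel₀ p.ne'
  rw [div_le_iff₀ (by positivity)]
  generalize ((minpoly ℚ (nF d)).natDegree : ℝ) = k at *
  have : 2 * k * (nF d)⁻¹ ≤ k + 1 := by push_cast at b3; linarith
  have h5 := mul_le_mul_of_nonneg_right this p.le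
  rw [mul_assoc, e4] at h5
  linarith

end Pool.Agent.Lib.MP_152d63_al
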