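import Pool.Agent.Lib.MP_152d63_al.Two.Dat

/-! Global dimensions below two of degree at most two. -/

namespace Pool.Agent.Lib.MP_152d63_al

open Finset

theorem two_half {a b : ℤ} (h : a ^ 2 = 2 * b) : ∃ c, a = 2 * c := by
  have : Even (a ^ 2) := ⟨b, by rw [h]; ring⟩
  exact (Int.even_pow.1 this).1.two_dvd

theorem two_par72 {t n w : ℤ} (h : w ^ 2 = (t ^ 2 - 4 * n) * 72) : 16 ∣ t * w := by
  obtain ⟨w1, rfl⟩ := two_half (a := w) (b := (t ^ 2 - 4 * n) * 36) (by linarith)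
  obtain ⟨w2, rfl⟩ := two_half (a := w1) (b := (t ^ 2 - 4 * n) * 9) (by linarith)
  obtain ⟨t1, rfl⟩ := two_half (a := t) (b := w2 ^ 2 + 18 * n - 4 * t ^ 2) (by linarith)
  obtain ⟨w3, rfl⟩ := two_half (a := w2) (b := (t1 ^ 2 - n) * 9) (by linarith)
  exact ⟨t1 * w3, by ring⟩

theorem two_par588 {t n w : ℤ} (h : w ^ 2 = (t ^ 2 - 4 * n) * 588) : 8 ∣ t * w := by
  obtain ⟨w1, rfl⟩ := two_half (a := w) (b := (t ^ 2 - 4 * n) * 294) (by linarith)
  obtain ⟨t1, rfl | rfl⟩ := Int.even_or_odd' t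
  · obtain ⟨w2, rfl⟩ := two_half (a := w1) (b := (t1 ^ 2 - n) * 294) (by linarith)
    exact ⟨t1 * w2, by ring⟩
  · exfalso
    obtain ⟨a, rfl | rfl⟩ := Int.even_or_odd' w1
    · have : 4 * (a ^ 2 - 147 * (t1 ^ 2 + t1 - n)) = 147 := by linarith
      omega
    · have : 4 * (a ^ 2 + a - 147 * (t1 ^ 2 + t1 - n)) = 146 := by linarith
      omega

theorem two_arith {T M q : ℤ} (h0 : 0 < T) (h1 : T ≤ M) (h2 : M + 4 < 2 * T)
    (h3 : 4 * (T ^ 2 - 4 * M) ≤ M ^ 2) (h4 : T ^ 2 = q * M) :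
    (T = 5 ∧ M = 5) ∨ (T = 15 ∧ M = 25) ∨ (T = 12 ∧ M = 18) ∨ (T = 28 ∧ M = 49) := by
  have h5 : 2 * T < M + 8 := by
    by_contra hc
    push Not at hc
    nlinarith
  obtain ⟨j, hj, j1, j2⟩ : ∃ j : ℤ, 2 * T = M + j ∧ 5 ≤ j ∧ j ≤ 7 := ⟨2 * T - M, by ring, by omega,
    by omega⟩
  have h6 : M ∣ j ^ 2 := ⟨4 * q - M - 2 * j, by
    have : (2 * T) ^ 2 = (M + j) ^ 2 := by rw [hj]
    linarith⟩
  have h7 : M ≤ 49 := (Int.le_of_dvd (by positivity) h6).trans (by nlinarith)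
  have h8 : M ∣ T ^ 2 := ⟨q, by rw [h4]; ring⟩
  have h9 : T ≤ 28 := by omega
  have h10 : 5 ≤ T := by omega
  clear h4 h6
  have : M = 2 * T - 5 ∨ M = 2 * T - 6 ∨ M = 2 * T - 7 := by omega
  rcases this with rfl | rfl | rfl <;> interval_cases T <;> omega

variable {ι κ : Type} [Fintype ι] [Fintype κ] {o : ι} {N : ι → ι → ι → ℕ} {d : ι → ℂ}
  {n : κ → ι → ℕ} {θ : κ → ℂ} {m : (ι → ℂ) → κ → ℕ}

/-- Below two the global dimension generates the field of all dimensions. -/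
theorem GoodChar.stab (hd : GoodChar o N d) (h2 : nF d < 2) {σ τ : ℂ ≃+* ℂ}
    (e : cj d σ = cj d τ) (i : ι) : σ (d i) = τ (d i) := by
  have e1 : cj d (σ.trans τ.symm) = nF d := by
    apply Complex.ofReal_injective
    rw [← hd.map_cj, e, hd.map_cj, RingEquiv.self_trans_symm, cj_refl]
  have e2 : (fun i => (σ.trans τ.symm) (d i)) = d := by
    by_contra hne
    have b := n_bessel2 (hd.map _) hd hne
    change (cj d (σ.trans τ.symm))⁻¹ + _ ≤ 1 at b
    have p := hd.nF_pos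
    rw [e1, ← two_mul, mul_inv_le_iff₀ p] at b
    linarith
  have e3 := congrArg τ (congrFun e2 i)
  simpa using e3

theorem Dat.quad (h : Dat o N d n θ m) (h2 : nF d < 2) {σ : ℂ ≃+* ℂ} (hσ : cj d σ ≠ nF d)
    (hall : ∀ τ, cj d τ = nF d ∨ cj d τ = cj d σ) :
    nF d = (5 - Real.sqrt 5) / 2 ∨ nF d = (15 - 5 * Real.sqrt 5) / 2 := by
  have hd := h.hd
  have perm : ∀ τ : ℂ ≃+* ℂ, (cj d τ = nF d ∧ cj d (σ.trans τ) = cj d σ) ∨
      (cj d τ = cj d σ ∧ cj d (σ.trans τ) = nF d) := by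
    intro τ
    have e3 : cj d τ ≠ cj d (σ.trans τ) := by
      intro e
      have e2 := hd.map_cj σ τ
      rw [← e, ← hd.map_nF τ] at e2
      exact hσ (by exact_mod_cast τ.injective e2)
    rcases hall τ with a | a <;> rcases hall (σ.trans τ) with b | b
    · exact absurd (a.trans b.symm) e3
    · exact Or.inl ⟨a, b⟩
    · exact Or.inr ⟨a, b⟩
    · exact absurd (a.trans b.symm) e3
  have permD : ∀ τ : ℂ ≃+* ℂ,
      (τ ((nF d : ℝ) : ℂ) = (nF d : ℝ) ∧ τ ((cj d σ : ℝ) : ℂ) = (cj d σ : ℝ) ∧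
        ∀ i, τ (d i) = d i ∧ τ (σ (d i)) = σ (d i)) ∨
      (τ ((nF d : ℝ) : ℂ) = (cj d σ : ℝ) ∧ τ ((cj d σ : ℝ) : ℂ) = (nF d : ℝ) ∧
        ∀ i, τ (d i) = σ (d i) ∧ τ (σ (d i)) = d i) := by
    intro τ
    rcases perm τ with ⟨a, b⟩ | ⟨a, b⟩
    · exact Or.inl ⟨by rw [hd.map_nF, a], by rw [hd.map_cj, b], fun i =>
        ⟨hd.stab h2 (τ := RingEquiv.refl ℂ) a i, hd.stab h2 b i⟩⟩
    · exact Or.inr ⟨by rw [hd.map_nF, a], by rw [hd.map_cj, b], fun i =>
        ⟨hd.stab h2 a i, hd.stab h2 (τ := RingEquiv.refl ℂ) b i⟩⟩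
  have iD := hd.isIntegral_nF
  have iE : IsIntegral ℤ ((cj d σ : ℝ) : ℂ) := (hd.map σ).isIntegral_nF
  have pD := hd.nF_pos
  have pE := hd.cj_pos σ
  obtain ⟨T, hT⟩ := n_fixed_int (iD.add iE) fun τ => by
    rcases permD τ with ⟨a, b, -⟩ | ⟨a, b, -⟩ <;> rw [map_add, a, b]
    rw [add_comm]
  obtain ⟨M, hM⟩ := n_fixed_int (iD.mul iE) fun τ => by
    rcases permD τ with ⟨a, b, -⟩ | ⟨a, b, -⟩ <;> rw [map_mul, a, b]
    rw [mul_comm]
  obtain ⟨q, hq⟩ := n_fixed_int ((h.isIntegral_div (RingEquiv.refl ℂ) σ).add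
      (h.isIntegral_div σ (RingEquiv.refl ℂ))) fun τ => by
    rw [cj_refl, Complex.ofReal_div, Complex.ofReal_div]
    rcases permD τ with ⟨a, b, -⟩ | ⟨a, b, -⟩ <;> rw [map_add, map_div₀, map_div₀, a, b]
    rw [add_comm]
  rw [cj_refl] at hq
  have eT : nF d + cj d σ = (T : ℝ) := by exact_mod_cast hT
  have eM : nF d * cj d σ = (M : ℝ) := by exact_mod_cast hM
  have eq : nF d / cj d σ + cj d σ / nF d = (q : ℝ) := by exact_mod_cast hq
  have par : ∀ Δ c : ℤ, (nF d - cj d σ) ^ 2 = (Δ : ℝ) →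
      (∀ t n w : ℤ, w ^ 2 = (t ^ 2 - 4 * n) * Δ → c ∣ t * w) → c ∣ Δ := by
    intro Δ c hΔ hc
    have hΔ' : (((nF d : ℝ) : ℂ) - (cj d σ : ℝ)) ^ 2 = (Δ : ℂ) := by exact_mod_cast hΔ
    have i1 := hd.isIntegral
    have i2 := (hd.map σ).isIntegral
    choose t ht using fun i => n_fixed_int ((i1 i).add (i2 i)) fun τ => by
      rcases permD τ with ⟨-, -, a⟩ | ⟨-, -, a⟩ <;> rw [map_add, (a i).1, (a i).2]
      rw [add_comm]
    choose p hp using fun i => n_fixed_int ((i1 i).mul (i2 i)) fun τ => by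
      rcases permD τ with ⟨-, -, a⟩ | ⟨-, -, a⟩ <;> rw [map_mul, (a i).1, (a i).2]
      rw [mul_comm]
    choose w hw using fun i => n_fixed_int (((i1 i).sub (i2 i)).mul (iD.sub iE)) fun τ => by
      rcases permD τ with ⟨b, b', a⟩ | ⟨b, b', a⟩ <;>
        rw [map_mul, map_sub, map_sub, (a i).1, (a i).2, b, b']
      ring
    have e1 : Δ = ∑ i, t i * w i := by
      apply Int.cast_injective (α := ℂ)
      push_cast
      simp only [← ht, ← hw, ← mul_assoc, ← sum_mul]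
      rw [← hΔ', sq]
      congr 1
      rw [hd.nF_eq, cj, (hd.map σ).nF_eq, ← sum_sub_distrib]
      exact sum_congr rfl fun i _ => by ring
    rw [e1]
    refine dvd_sum fun i _ => hc _ (p i) _ ?_
    apply Int.cast_injective (α := ℂ)
    push_cast
    rw [← ht, ← hw, ← hp, ← hΔ']
    ring
  have b2 : (nF d)⁻¹ + (cj d σ)⁻¹ ≤ 1 :=
    n_bessel2 hd (hd.map σ) fun e => hσ (by rw [cj, ← e])
  have k := h.key σ hσ
  have e5 : cj d σ.symm = cj d σ := by
    rcases perm σ.symm with ⟨a, b⟩ | ⟨a, b⟩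
    · rw [RingEquiv.self_trans_symm, cj_refl] at b
      exact absurd b.symm hσ
    · exact a
  rw [e5] at k
  generalize nF d = D at *
  generalize cj d σ = E at *
  have c1 : D + E ≤ D * E := by
    have := mul_le_mul_of_nonneg_right b2 (mul_pos pD pE).le
    have e : (D⁻¹ + E⁻¹) * (D * E) = D + E := by field_simp; ring
    linarith
  have c2 : 2 * (E - D) ≤ D * E := by
    have := mul_le_mul_of_nonneg_right k (mul_pos pD pE).le
    have e : (E⁻¹ + E⁻¹) * (D * E) = 2 * D := by field_simp; ring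
    have e' : (2 * D⁻¹ - 1) * (D * E) = 2 * E - D * E := by field_simp
    linarith
  have c3 : 2 < E := by nlinarith
  have c4 : (D + E) ^ 2 = (q + 2) * (D * E) := by rw [← eq]; field_simp; ring
  have c5 : (D - E) ^ 2 = (T : ℝ) ^ 2 - 4 * M := by rw [← eT, ← eM]; ring
  have ar := two_arith (T := T) (M := M) (q := q + 2)
    (by have : (0 : ℝ) < T := by linarith
        exact_mod_cast this)
    (by have : (T : ℝ) ≤ M := by linarith
        exact_mod_cast this)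
    (by have : (M : ℝ) + 4 < 2 * T := by nlinarith
        exact_mod_cast this)
    (by have : 4 * ((T : ℝ) ^ 2 - 4 * M) ≤ (M : ℝ) ^ 2 := by
          rw [← c5, ← eM]; nlinarith
        exact_mod_cast this)
    (by have : (T : ℝ) ^ 2 = (q + 2) * M := by rw [← eT, ← eM, c4]
        exact_mod_cast this)
  have s5 : Real.sqrt 5 ^ 2 = 5 := Real.sq_sqrt (by norm_num)
  have s0 : 0 ≤ Real.sqrt 5 := Real.sqrt_nonneg _
  rcases ar with ⟨rfl, rfl⟩ | ⟨rfl, rfl⟩ | ⟨rfl, rfl⟩ | ⟨rfl, rfl⟩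
  · left
    push_cast at eT c5
    have : E - D = Real.sqrt 5 :=
      (pow_left_inj₀ (by linarith) s0 two_ne_zero).1 (by rw [s5]; linarith)
    linarith
  · right
    push_cast at eT c5
    have : E - D = 5 * Real.sqrt 5 :=
      (pow_left_inj₀ (by linarith) (by positivity) two_ne_zero).1 (by rw [mul_pow, s5]; linarith)
    linarith
  · exact absurd (par 72 16 (by rw [c5]; norm_num) fun _ _ _ => two_par72) (by norm_num)
  · exact absurd (par 588 8 (by rw [c5]; norm_num) fun _ _ _ => two_par588) (by norm_num)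

theorem Dat.low (h : Dat o N d n θ m) (h2 : nF d < 2)
    (hk : (minpoly ℚ (nF d)).natDegree ≤ 2) :
    nF d = 1 ∨ nF d = (5 - Real.sqrt 5) / 2 ∨ nF d = (15 - 5 * Real.sqrt 5) / 2 := by
  classical
  by_cases hall : ∀ σ, cj d σ = nF d
  · left
    obtain ⟨k, hk⟩ := n_fixed_int h.hd.isIntegral_nF fun σ => by rw [h.hd.map_nF, hall]
    have hk' : nF d = (k : ℝ) := by exact_mod_cast hk
    have h1 := h.hd.one_le_nF
    rw [hk'] at h1 h2 ⊢
    have k1 : (1 : ℤ) ≤ k := by exact_mod_cast h1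
    have k2 : k < (2 : ℤ) := by exact_mod_cast h2
    obtain rfl : k = 1 := by omega
    simp
  · right
    push Not at hall
    obtain ⟨σ, hσ⟩ := hall
    obtain ⟨R, hc, hR⟩ := h.hd.orbit
    refine h.quad h2 hσ fun τ => ?_
    by_contra hne
    push Not at hne
    have : 2 < R.card := two_lt_card_iff.2 ⟨_, _, _, (hR _).2 ⟨τ, rfl⟩, (hR _).2 ⟨_, cj_refl d⟩,
      (hR _).2 ⟨σ, rfl⟩, hne.1, hne.2, hσ.symm⟩
    omega

end Pool.Agent.Lib.MP_152d63_al
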