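import Pool.Agent.Lib.MP_152d63_al.Main
import Pool.Agent.Lib.MP_152d63_al.Two.Quad

/-! Global dimensions below two. -/

namespace Pool.Agent.Lib.MP_152d63_al

open CategoryTheory MonoidalCategory Limits ExactPairing

universe v u

set_option linter.unusedSectionVars false

variable {C : Type u} [Category.{v} C] [Abelian C] [Linear ℂ C] [MonoidalCategory C]
  [MonoidalPreadditive C] [MonoidalLinear ℂ C] [RigidCategory C] [Ctx C]

open Ctx

attribute [local instance] Abelian.hasFiniteBiproducts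

theorem exists_dat : ∃ (k : ℕ) (n : Fin k → Ix C → ℕ) (θ : Fin k → ℂ)
    (m : (Ix C → ℂ) → Fin k → ℕ), Dat o (fus C) (fun i => dm (S i)) n θ m := by
  obtain ⟨U, ι, π, hιπ⟩ : ∃ (U : C) (ι : ∀ k : Ix C, S k ⟶ U) (π : ∀ k : Ix C, U ⟶ S k),
      ∀ k, ι k ≫ π k = 𝟙 _ :=
    ⟨⨁ S, biproduct.ι S, biproduct.π S, fun k => biproduct.ι_π_self _ _⟩
  obtain ⟨i0, r0, h0⟩ : ∃ (i0 : 𝟙_ C ⟶ U) (r0 : U ⟶ 𝟙_ C), i0 ≫ r0 = 𝟙 _ :=
    ⟨un.inv ≫ ι o, π o ≫ un.hom, by rw [Category.assoc, reassoc_of% (hιπ o), Iso.inv_hom_id]⟩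
  obtain ⟨m, tr, z, h1, h2, h3, h4, -⟩ := exists_blocks (ZEnd (free U)) (Tr _ ∘ₗ ZEnd.hom)
    (fun a ha => Tr_nilpotent a.1 (ha.map (ZEnd (free U)).val))
    (fun a ha => ZEnd.ext ((ZEnd.isMor a).eq_zero_of_Tr fun b hb => by
      rw [Tr_comm]
      exact ha (ZEnd.mk b hb)))
  obtain ⟨p, hp⟩ : ∃ p : Ix C → ZEnd (free U), ∀ k, ZEnd.hom (p k)
      = Tmap _ _ (π k) ≫ 𝟙 _ ≫ Tmap _ _ (ι k) :=
    ⟨fun k => ZEnd.mk _ ((isMor_Tmap _).comp ((IsMor.id _).comp (isMor_Tmap _))), fun _ => rfl⟩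
  have hTιπ : ∀ k, Tmap _ _ (ι k) ≫ Tmap _ _ (π k) = 𝟙 _ := fun k => by
    rw [← Tmap_comp, hιπ, Tmap_id]
  have hT0 : Tmap _ _ i0 ≫ Tmap _ _ r0 = 𝟙 _ := by rw [← Tmap_comp, h0, Tmap_id]
  have hpp : ∀ k, p k * p k = p k := fun k => ZEnd.ext (by
    rw [ZEnd.hom_mul, hp]
    simp only [Category.assoc, Category.id_comp]
    rw [reassoc_of% (hTιπ k)])
  choose nn hnn using fun Y k => h2 (p k) (hpp k) Y
  obtain ⟨t, ht⟩ : ∃ t : ZEnd (free U), ZEnd.hom t = (free U).θ :=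
    ⟨ZEnd.mk _ (HB.isMor_θ _), rfl⟩
  have htc : ∀ a, t * a = a * t := fun a => ZEnd.ext (by
    rw [ZEnd.hom_mul, ZEnd.hom_mul, ht, (ZEnd.isMor a).θ_nat])
  choose θ hθ1 hθ2 using h3 t htc
  obtain ⟨X, hX⟩ : ∃ X : Ix C → ZEnd (free U), ∀ k, ZEnd.hom (X k)
      = Tmap _ _ r0 ≫ xx (S k) ≫ Tmap _ _ i0 :=
    ⟨fun k => ZEnd.mk _ ((isMor_Tmap _).comp ((isMor_xx _).comp (isMor_Tmap _))), fun _ => rfl⟩
  obtain ⟨e, he⟩ : ∃ e : (Ix C → ℂ) → ZEnd (free U), ∀ χ, ZEnd.hom (e χ)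
      = Tmap _ _ r0 ≫ eχ χ ≫ Tmap _ _ i0 :=
    ⟨fun χ => ZEnd.mk _ ((isMor_Tmap _).comp ((isMor_eχ _).comp (isMor_Tmap _))), fun _ => rfl⟩
  have hee : ∀ χ, GoodChar o (fus C) χ → e χ * e χ = e χ := fun χ h => ZEnd.ext (by
    rw [ZEnd.hom_mul, he]
    simp only [Category.assoc]
    rw [reassoc_of% hT0, reassoc_of% (eχ_idem h)])
  have hex : ∀ χ Y, ∃ k : ℕ, GoodChar o (fus C) χ → tr Y (e χ) = k := by
    intro χ Y
    by_cases h : GoodChar o (fus C) χ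
    · obtain ⟨k, hk⟩ := h2 _ (hee χ h) Y
      exact ⟨k, fun _ => hk⟩
    · exact ⟨0, fun h' => absurd h' h⟩
  choose mm hmm using hex
  have hTr : ∀ a : ZEnd (free U), Tr _ (ZEnd.hom a)
      = ∑ Y, tr Y a * ∑ k, (nn Y k : ℂ) * dm (S k) := by
    intro a
    have hk : ∀ k, trH (S k) _ (ZEnd.hom a) = ∑ Y, tr Y a * nn Y k := by
      intro k
      rw [trH_apply, trace_transfer (ι k) (π k) (𝟙 U) (𝟙 U) (Category.id_comp _) (hιπ k)
        (IsMor.id _) (ZEnd.isMor a) _ (fun φ => by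
          rw [Category.id_comp, reassoc_of% (eta_lift (free U) φ), Linear.rightComp_apply])
        a (p k) (by rw [Tmap_id]; simp) (hp k), h1]
      simp only [hnn]
    rw [Tr_eq_sum]
    simp only [hk, Finset.sum_mul, Finset.mul_sum, mul_assoc]
    exact Finset.sum_comm
  have hmul : ∀ χ ψ, GoodChar o (fus C) χ → GoodChar o (fus C) ψ →
      ((∑ Y, mm χ Y * mm ψ Y : ℕ) : ℂ) = LinearMap.trace ℂ _ (Φχ χ ψ) := by
    intro χ ψ h h'
    rw [trace_transfer i0 r0 i0 r0 h0 h0 (isMor_eχ χ) (isMor_eχ ψ) _ (Φχ_apply χ ψ) (e ψ) (e χ)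
      (he ψ) (he χ), h1]
    push_cast
    exact Finset.sum_congr rfl fun Y _ => by rw [hmm _ _ h, hmm _ _ h', mul_comm]
  have htp : ∀ j, ZEnd.hom (t * p j) = Tmap _ _ (π j) ≫ (free (S j)).θ ≫ Tmap _ _ (ι j) := by
    intro j
    rw [ZEnd.hom_mul, hp, ht, ← (isMor_Tmap (ι j)).θ_nat]
    simp
  refine ⟨_, nn, θ, mm, goodChar_dm C, ?_, ?_, ?_, ?_, ?_, ?_, ?_⟩ <;> try simp only [nY]
  · intro Y hY
    refine root_of_unity (free U) (ZEnd.isMor (z Y)) ?_ ?_ ?_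
    · rw [← ZEnd.hom_mul, (h4 Y).1]
    · rw [hTr, Finset.sum_eq_single Y (fun Y' _ h => by rw [(h4 Y).2.2 Y' h, zero_mul]) (by simp)]
      exact mul_ne_zero (h4 Y).2.1 hY
    · rw [← ht, ← ZEnd.hom_mul, hθ1, map_smul]
  · intro χ h
    have := hmul χ χ h h
    rw [trace_Φχ h] at this
    exact_mod_cast this
  · intro χ ψ h h' hne
    have := hmul χ ψ h h'
    rw [trace_Φχ_ne h h' hne] at this
    exact_mod_cast this
  · intro χ h Y hY
    have e1 : t * e χ = e χ := ZEnd.ext (by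
      rw [ZEnd.hom_mul, he, ht]
      simp only [Category.assoc]
      rw [(isMor_Tmap i0).θ_nat, θ_free_unit, Category.id_comp])
    have e2 := hθ2 Y (e χ)
    rw [e1, hmm _ _ h] at e2
    have e3 : (mm χ Y : ℂ) ≠ 0 := by exact_mod_cast hY
    exact ((mul_eq_right₀ e3).mp e2.symm)
  · intro j
    have := hTr (p j)
    rw [hp, Category.id_comp, Tr_comm, hTιπ, ← dm, dm_T] at this
    simp only [hnn] at this
    exact this.symm
  · intro ψ
    have key : ∀ j, ∑ Y, θ Y * (nn Y j : ℂ) * ∑ k, (nn Y k : ℂ) * dm (S k)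
        = if j = o then DD C else 0 := by
      intro j
      have := hTr (t * p j)
      rw [htp, Tr_comm, Category.assoc, hTιπ, Category.comp_id, Tr_θ_free] at this
      simp only [hθ2, hnn] at this
      exact this.symm
    calc _ = ∑ j, ψ j * ∑ Y, θ Y * (nn Y j : ℂ) * ∑ k, (nn Y k : ℂ) * dm (S k) := by
          simp only [Finset.mul_sum _ _ (θ _), Finset.mul_sum _ _ (ψ _), Finset.sum_mul]
          rw [Finset.sum_comm]
          exact Finset.sum_congr rfl fun _ _ => Finset.sum_congr rfl fun _ _ => by ring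
      _ = _ := by
          simp only [key, mul_ite, mul_zero, Finset.sum_ite_eq', Finset.mem_univ, if_true]
          rw [mul_comm]; rfl
  · intro χ h j
    have key : ∀ i, ∑ Y, θ Y * (nn Y j : ℂ) * (nn Y i : ℂ) = ∑ Y, (nn Y j : ℂ) * tr Y (X i) := by
      intro i
      have e1 := trace_twist (S i) (S j)
      rw [trace_transfer (ι i) (π i) (ι j) (π j) (hιπ j) (hιπ i) (IsMor.id _) (HB.isMor_θ _) _
        (fun φ => by rw [Op_id, Category.id_comp, reassoc_of% (eta_lift (free (S j)) φ)])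
        (t * p j) (p i) (htp j) (hp i),
        trace_transfer i0 r0 (ι j) (π j) (hιπ j) h0 (isMor_xx (S i)) (IsMor.id _) _
        (fun φ => by rw [Op_apply, Category.comp_id, reassoc_of% (eta_xx (S i))])
        (p j) (X i) (hp j) (hX i), h1, h1] at e1
      simpa only [hθ2, hnn] using e1
    have e2 : ∑ i, χ i • X i = (∑ i, χ i ^ 2) • e χ := ZEnd.ext (by
      rw [map_smul, he, eχ, Linear.smul_comp, Linear.comp_smul, smul_smul,
        mul_inv_cancel₀ h.sum_sq_ne_zero, one_smul, map_sum, Preadditive.sum_comp,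
        Preadditive.comp_sum]
      refine Finset.sum_congr rfl fun i _ => ?_
      rw [map_smul, hX]
      simp)
    calc _ = ∑ i, χ i * ∑ Y, θ Y * (nn Y j : ℂ) * (nn Y i : ℂ) := by
          simp only [Finset.mul_sum]
          rw [Finset.sum_comm]
          exact Finset.sum_congr rfl fun _ _ => Finset.sum_congr rfl fun _ _ => by ring
      _ = ∑ Y, (nn Y j : ℂ) * tr Y (∑ i, χ i • X i) := by
          simp only [key, map_sum, map_smul, smul_eq_mul, Finset.mul_sum]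
          rw [Finset.sum_comm]
          exact Finset.sum_congr rfl fun _ _ => Finset.sum_congr rfl fun _ _ => by ring
      _ = _ := by
          rw [e2, Finset.mul_sum]
          exact Finset.sum_congr rfl fun Y _ => by
            rw [map_smul, hmm _ _ h, smul_eq_mul]; ring

theorem below_two : ∃ x : ℝ, DD C = (x : ℂ) ∧ (x = 1 ∨ x = (5 - Real.sqrt 5) / 2 ∨
    x = (15 - 5 * Real.sqrt 5) / 2 ∨ 2 ≤ x ∨ (3 ≤ (minpoly ℚ x).natDegree ∧
      2 * ((minpoly ℚ x).natDegree : ℝ) / ((minpoly ℚ x).natDegree + 1) ≤ x)) := by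
  obtain ⟨k, n, θ, m, h⟩ := exists_dat (C := C)
  refine ⟨_, h.hd.nF_eq.symm, ?_⟩
  by_cases h2 : nF (fun i : Ix C => dm (S i)) < 2
  · by_cases hk : (minpoly ℚ (nF fun i : Ix C => dm (S i))).natDegree ≤ 2
    · rcases h.low h2 hk with e | e | e
      · exact Or.inl e
      · exact Or.inr (Or.inl e)
      · exact Or.inr (Or.inr (Or.inl e))
    · exact Or.inr (Or.inr (Or.inr (Or.inr ⟨not_le.1 hk, h.degree⟩)))
  · exact Or.inr (Or.inr (Or.inr (Or.inl (not_lt.1 h2))))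

end Pool.Agent.Lib.MP_152d63_al
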